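import Pool.Agent.R864.TPExample

/-!
MP_443384_al, Q1: the statement is false. In the group `C₁₆ ⋊ C₄` of order 64 (a generator of `C₄`
acts on `C₁₆` as multiplication by 5) the complement `H₀ = C₄` has `P_G(H₀) = 9/4096`, while
`P_G(H) ≥ 1/256` for every subgroup `H` with `(H : core H) ≤ 2`.
-/

namespace Pool.Agent.Results.MP_443384_al.Counterexample

open Pool.Agent.R864.TP

theorem result : ∃ (G : Type) (_ : Group G), Finite G ∧ Nontrivial G ∧
    ∀ (p : ℕ) (H : Subgroup G), p.Prime → p ∣ Nat.card G → IsCyclic H → IsPGroup p H →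
      P H = tp G → p < H.normalCore.relIndex H := by
  refine ⟨W, inferInstance, inferInstance, ?_, ?_⟩
  · refine ⟨1, ((0, 1) : ZMod 16 × ZMod 4), ?_⟩
    intro h
    exact absurd (congrArg Prod.snd h) (by decide)
  · intro p H hp hpG _ _ hP
    have hp2 : p = 2 := by
      rw [card_W] at hpG
      have : p ∣ 2 ^ 6 := hpG
      exact (Nat.prime_dvd_prime_iff_eq hp Nat.prime_two).mp (hp.dvd_of_dvd_pow this)
    subst hp2
    by_contra hcon
    push Not at hcon
    have h1 := P_lower_W H hcon
    have h2 := tp_le H₀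
    rw [P_H₀] at h2
    rw [hP] at h1
    norm_num at h1 h2
    linarith

end Pool.Agent.Results.MP_443384_al.Counterexample
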